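import Pool.Agent.H210Z.ST.Algo

/-!
# Semi-transitivity of chordal graphs is decidable in polynomial time
-/

set_option autoImplicit false

namespace Pool.Agent.Results.MP_1d1d91_lc.APolyTime

open Pool.Agent.NPC Pool.Agent.H210Z.ST

/-- There is a polynomial-time Turing machine which, given the vertex list `[0, ..., n-1]` and an
edge list of a chordal graph `G` on `n` vertices, outputs `true` if `G` is semi-transitive and
`false` otherwise. -/
theorem result : ∃ A : List Bool → List Bool, PolyTime A ∧
    ∀ (n : ℕ) (G : SimpleGraph (Fin n)) (es : List (ℕ × ℕ)),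
      (∀ i j : Fin n, G.Adj i j ↔ ((i : ℕ), (j : ℕ)) ∈ es ∨ ((j : ℕ), (i : ℕ)) ∈ es) →
      IsChordal G →
      (IsSemiTransitive G → A (bits (List.range n, es)) = [true]) ∧
      (¬ IsSemiTransitive G → A (bits (List.range n, es)) = [false]) :=
  main

end Pool.Agent.Results.MP_1d1d91_lc.APolyTime
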